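import Mathlib
import Pool.Agent.Q130.FAC.Main

set_option autoImplicit false

namespace Pool.Agent.Results.MP_4abee9_co.Flat

open Finset
open scoped FinsetFamily

/-- The squashed order: the largest element of the symmetric difference lies in `G`. -/
def SqLt {n : ℕ} (F G : Finset (Fin n)) : Prop :=
  ∃ h : F ≠ G, (symmDiff F G).max' (symmDiff_nonempty.2 h) ∈ G

/-- All `k`-subsets of an `n`-element set. -/
def Level (n k : ℕ) : Finset (Finset (Fin n)) := powersetCard k univ

/-- The shadow of a family of `k`-sets: the sets obtained by deleting one element of a member. -/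
def Shadow {n : ℕ} (A : Finset (Finset (Fin n))) : Finset (Finset (Fin n)) :=
  univ.filter fun S => ∃ F ∈ A, ∃ x ∈ F, S = F.erase x

/-- `𝒜 ∪ ℬ` is a maximal squashed flat antichain with parameters `k` and `m = |𝒜|`: `𝒜` consists of
the first `m` sets of size `k` in squashed order, `ℬ` consists of the `(k-1)`-sets not in the shadow
of `𝒜`, and every `k`-set outside `𝒜` contains a member of `ℬ`. -/
def IsMSFA {n : ℕ} (F : Finset (Finset (Fin n))) : Prop :=
  ∃ k : ℕ, 1 ≤ k ∧ k ≤ n ∧ ∃ A B : Finset (Finset (Fin n)),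
    A ⊆ Level n k ∧ (∀ S ∈ A, ∀ S' ∈ Level n k, SqLt S' S → S' ∈ A) ∧
    B = Level n (k - 1) \ Shadow A ∧
    (∀ S ∈ Level n k, S ∉ A → ∃ S' ∈ B, S' ⊆ S) ∧
    F = A ∪ B

/-- An antichain is a family in which no member is properly contained in another. -/
def Antichain {n : ℕ} (G : Finset (Finset (Fin n))) : Prop :=
  ∀ S ∈ G, ∀ S' ∈ G, ¬ S ⊂ S'

/-- Flat: all sizes are `k - 1` or `k` for some `1 ≤ k ≤ n`. -/
def IsFlat {n : ℕ} (G : Finset (Finset (Fin n))) : Prop :=
  ∃ k : ℕ, 1 ≤ k ∧ k ≤ n ∧ ∀ S ∈ G, S.card = k - 1 ∨ S.card = k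

/-- Every antichain with the same size and the same volume as a maximal squashed flat antichain is
flat. -/
theorem result (n : ℕ) (F G : Finset (Finset (Fin n))) (hF : IsMSFA F) (hG : Antichain G)
    (hsize : G.card = F.card) (hvol : ∑ S ∈ G, S.card = ∑ S ∈ F, S.card) : IsFlat G := by
  obtain ⟨k, hk1, hkn, A, B, hA, hinit, hB, hmax, rfl⟩ := hF
  have hsh : Shadow A = ∂ A := by
    ext S
    simp only [Shadow, mem_filter, mem_univ, true_and, mem_shadow_iff]
    constructor
    · rintro ⟨F, hF, x, hx, rfl⟩; exact ⟨F, hF, x, hx, rfl⟩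
    · rintro ⟨F, hF, x, hx, rfl⟩; exact ⟨F, hF, x, hx, rfl⟩
  rw [hsh] at hB
  have hI : Colex.IsInitSeg A k := by
    refine ⟨fun S hS => (mem_powersetCard.1 (hA (mem_coe.1 hS))).2, ?_⟩
    rintro S S' hS ⟨hlt, hc⟩
    refine hinit S hS S' (mem_powersetCard.2 ⟨subset_univ _, hc⟩) ?_
    exact Colex.toColex_lt_toColex_iff_max'_mem.1 hlt
  have hG' : IsAntichain (· ⊆ ·) (G : Set (Finset (Fin n))) := by
    intro S hS S' hS' hne hsub
    exact hG S (mem_coe.1 hS) S' (mem_coe.1 hS') (ssubset_of_subset_of_ne hsub hne)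
  have hdisj : Disjoint A B := by
    rw [disjoint_left]
    intro S hS hS'
    have h1 := (mem_powersetCard.1 (hA hS)).2
    rw [hB, Level, mem_sdiff, mem_powersetCard] at hS'
    omega
  rw [card_union_of_disjoint hdisj] at hsize
  rw [sum_union hdisj] at hvol
  have hv1 : ∑ S ∈ A, S.card = k * A.card := by
    rw [card_eq_sum_ones, mul_sum]
    apply sum_congr rfl
    intro S hS
    rw [(mem_powersetCard.1 (hA hS)).2, mul_one]
  have hv2 : ∑ S ∈ B, S.card = (k - 1) * B.card := by
    rw [card_eq_sum_ones, mul_sum]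
    apply sum_congr rfl
    intro S hS
    rw [hB, Level, mem_sdiff, mem_powersetCard] at hS
    rw [hS.1.2, mul_one]
  rw [hv1, hv2] at hvol
  rw [hB] at hsize hvol hmax
  have h := Pool.Agent.Q130.FAC.no_excess k (n + 1 - k) hk1 (by omega) (by omega) A hI
    (fun C hC hCA => hmax C (mem_powersetCard.2 ⟨subset_univ _, hC⟩) hCA) G hG' hsize hvol
  exact ⟨k, hk1, hkn, Pool.Agent.Q130.FAC.sizes k (n + 1 - k) (by omega) G h.1 h.2⟩

end Pool.Agent.Results.MP_4abee9_co.Flat
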